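import Mathlib
import Pool.Agent.D0H61.AB.Stm

/-!
# Module UP: the Borel-Cantelli argument of the upper half
-/

set_option autoImplicit false

namespace Pool.Agent.D0H65.AB

open Filter Topology MeasureTheory Finset
open Pool.Agent.D0H61.AB

theorem V_mono {x y : ℝ} (hx : Real.exp (Real.exp 1) ≤ x) (hxy : x ≤ y) : V x ≤ V y := by
  have hx0 : 0 < x := lt_of_lt_of_le (Real.exp_pos _) hx
  have hlx : Real.exp 1 ≤ Real.log x := (Real.le_log_iff_exp_le hx0).2 hx
  have hly : Real.log x ≤ Real.log y := Real.log_le_log hx0 hxy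
  have hy1 : Real.exp 1 ≤ Real.log y := hlx.trans hly
  have hy0 : 0 < Real.log y := lt_of_lt_of_le (Real.exp_pos _) hy1
  have hl1 : 1 ≤ Real.log (Real.log y) := (Real.le_log_iff_exp_le hy0).2 hy1
  have h := Real.log_div_self_antitoneOn (show Real.exp 1 ≤ Real.log x from hlx)
    (show Real.exp 1 ≤ Real.log y from hy1) hly
  unfold V
  apply Real.sqrt_le_sqrt
  have h1 : 0 < Real.log (Real.log y) / Real.log y := div_pos (by linarith) hy0
  have h2 := one_div_le_one_div_of_le h1 h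
  simpa [one_div_div] using h2

/-- for `x ≥ exp (exp 1)`, `A ≥ 1`: `V (A x) ≤ V x + √(log A)` -/
theorem V_mul {x A : ℝ} (hx : Real.exp (Real.exp 1) ≤ x) (hA : 1 ≤ A) :
    V (A * x) ≤ V x + Real.sqrt (Real.log A) := by
  have hx0 : 0 < x := lt_of_lt_of_le (Real.exp_pos _) hx
  have hlx : Real.exp 1 ≤ Real.log x := (Real.le_log_iff_exp_le hx0).2 hx
  have hlx0 : 0 < Real.log x := lt_of_lt_of_le (Real.exp_pos _) hlx
  have hl1 : 1 ≤ Real.log (Real.log x) := (Real.le_log_iff_exp_le hlx0).2 hlx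
  have hA0 : 0 ≤ Real.log A := Real.log_nonneg hA
  have hlog : Real.log (A * x) = Real.log x + Real.log A := by
    rw [Real.log_mul (by linarith) hx0.ne']; ring
  have h1 : Real.log (A * x) / Real.log (Real.log (A * x)) ≤
      Real.log x / Real.log (Real.log x) + Real.log A := by
    rw [hlog]
    have h2 : Real.log (Real.log x) ≤ Real.log (Real.log x + Real.log A) :=
      Real.log_le_log hlx0 (by linarith)
    calc (Real.log x + Real.log A) / Real.log (Real.log x + Real.log A)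
        ≤ (Real.log x + Real.log A) / Real.log (Real.log x) := by
          apply div_le_div_of_nonneg_left (by linarith) (by linarith) h2
      _ = Real.log x / Real.log (Real.log x) + Real.log A / Real.log (Real.log x) := by ring
      _ ≤ Real.log x / Real.log (Real.log x) + Real.log A := by
          have : Real.log A / Real.log (Real.log x) ≤ Real.log A := div_le_self hA0 hl1
          linarith
  unfold V
  have hq : 0 ≤ Real.log x / Real.log (Real.log x) := div_nonneg hlx0.le (by linarith)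
  rw [Real.sqrt_le_left (by positivity)]
  refine h1.trans ?_
  have e1 := Real.sq_sqrt hq
  have e2 := Real.sq_sqrt hA0
  nlinarith [Real.sqrt_nonneg (Real.log x / Real.log (Real.log x)), Real.sqrt_nonneg (Real.log A),
    mul_nonneg (Real.sqrt_nonneg (Real.log x / Real.log (Real.log x))) (Real.sqrt_nonneg (Real.log A))]

/-- `V x ≤ √(log x)` -/
theorem V_le {x : ℝ} (hx : Real.exp (Real.exp 1) ≤ x) : V x ≤ Real.sqrt (Real.log x) := by
  have hx0 : 0 < x := lt_of_lt_of_le (Real.exp_pos _) hx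
  have hlx : Real.exp 1 ≤ Real.log x := (Real.le_log_iff_exp_le hx0).2 hx
  have hlx0 : 0 < Real.log x := lt_of_lt_of_le (Real.exp_pos _) hlx
  have hl1 : 1 ≤ Real.log (Real.log x) := (Real.le_log_iff_exp_le hlx0).2 hlx
  unfold V
  exact Real.sqrt_le_sqrt (div_le_self hlx0.le hl1)

/-- eventually `j ^ (1 / 4) ≤ V (2 ^ j)` -/
theorem V_ge : ∀ᶠ j : ℕ in atTop, (j : ℝ) ^ (1 / 4 : ℝ) ≤ V ((2 : ℝ) ^ j) := by
  -- `log (j log 2) ≤ log j ≤ (log 2) √j` eventually
  have h1 : ∀ᶠ x : ℝ in atTop, Real.log x ≤ Real.log 2 * x ^ (1 / 2 : ℝ) := by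
    have := isLittleO_log_rpow_atTop (show (0 : ℝ) < 1 / 2 by norm_num)
    have h2 := this.bound (show (0 : ℝ) < Real.log 2 from Real.log_pos (by norm_num))
    filter_upwards [h2, eventually_ge_atTop (1 : ℝ)] with x hx hx1
    rw [Real.norm_of_nonneg (Real.log_nonneg hx1), Real.norm_of_nonneg (by positivity)] at hx
    exact hx
  have h2 := (tendsto_natCast_atTop_atTop (R := ℝ)).eventually h1
  filter_upwards [h2, eventually_ge_atTop 4] with j hj hj4
  have hj4' : (4 : ℝ) ≤ j := by exact_mod_cast hj4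
  have hl2 : (0.6931471803 : ℝ) < Real.log 2 := Real.log_two_gt_d9
  have hl2' : Real.log 2 < (0.6931471808 : ℝ) := Real.log_two_lt_d9
  unfold V
  rw [Real.log_pow]
  have hjl : (1 : ℝ) < j * Real.log 2 := by nlinarith
  have hlog0 : 0 < Real.log (j * Real.log 2) := Real.log_pos hjl
  have hlog1 : Real.log (j * Real.log 2) ≤ Real.log 2 * (j : ℝ) ^ (1 / 2 : ℝ) := by
    refine le_trans (Real.log_le_log (by positivity) ?_) hj
    nlinarith
  apply Real.le_sqrt_of_sq_le
  rw [le_div_iff₀ hlog0]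
  have e1 : ((j : ℝ) ^ (1 / 4 : ℝ)) ^ 2 = (j : ℝ) ^ (1 / 2 : ℝ) := by
    rw [← Real.rpow_natCast, ← Real.rpow_mul (by positivity)]
    norm_num
  rw [e1]
  have e2 : (j : ℝ) ^ (1 / 2 : ℝ) * (j : ℝ) ^ (1 / 2 : ℝ) = j := by
    rw [← Real.rpow_add (by positivity)]
    norm_num
  calc (j : ℝ) ^ (1 / 2 : ℝ) * Real.log (j * Real.log 2)
      ≤ (j : ℝ) ^ (1 / 2 : ℝ) * (Real.log 2 * (j : ℝ) ^ (1 / 2 : ℝ)) :=
        mul_le_mul_of_nonneg_left hlog1 (by positivity)
    _ = ((j : ℝ) ^ (1 / 2 : ℝ) * (j : ℝ) ^ (1 / 2 : ℝ)) * Real.log 2 := by ring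
    _ = (j : ℝ) * Real.log 2 := by rw [e2]

/-- `∑ exp (-a V (2 ^ j))` converges -/
theorem summable_V {a : ℝ} (ha : 0 < a) : Summable fun j : ℕ => Real.exp (-a * V ((2 : ℝ) ^ j)) := by
  have h0 : Summable fun j : ℕ => (1 : ℝ) / (j : ℝ) ^ 2 := Real.summable_one_div_nat_pow.2 (by norm_num)
  refine Summable.of_norm_bounded_eventually_nat h0 ?_
  have h1 : ∀ᶠ x : ℝ in atTop, Real.exp (-a * x) ≤ x ^ (-8 : ℝ) := by
    have h2 := (isLittleO_exp_neg_mul_rpow_atTop ha (-8)).bound (show (0 : ℝ) < 1 by norm_num)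
    filter_upwards [h2, eventually_gt_atTop (0 : ℝ)] with x hx hx0
    rw [Real.norm_of_nonneg (Real.exp_pos _).le, Real.norm_of_nonneg (by positivity), one_mul] at hx
    exact hx
  have h3 : Tendsto (fun j : ℕ => (j : ℝ) ^ (1 / 4 : ℝ)) atTop atTop :=
    (tendsto_rpow_atTop (by norm_num)).comp tendsto_natCast_atTop_atTop
  filter_upwards [h3.eventually h1, V_ge, eventually_ge_atTop 1] with j hj hv hj1
  have hj1' : (1 : ℝ) ≤ j := by exact_mod_cast hj1
  rw [Real.norm_of_nonneg (Real.exp_pos _).le]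
  have e1 : ((j : ℝ) ^ (1 / 4 : ℝ)) ^ (-8 : ℝ) = 1 / (j : ℝ) ^ 2 := by
    rw [← Real.rpow_mul (by positivity)]
    have : (1 / 4 : ℝ) * (-8 : ℝ) = -((2 : ℕ) : ℝ) := by norm_num
    rw [this, Real.rpow_neg (by positivity), Real.rpow_natCast, one_div]
  rw [← e1]
  refine le_trans (Real.exp_le_exp.2 ?_) hj
  nlinarith

theorem t_UP : S_BND → S_UP := by
  intro hB Ω _ μ E C ε hC hε hμ
  classical
  set A0 : ℝ := 4 * Real.sqrt 3 + ε with hA0
  have hs3 : 0 ≤ Real.sqrt 3 := Real.sqrt_nonneg 3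
  have hA0pos : 0 < A0 := by rw [hA0]; linarith
  let S : Set (ℕ × ℕ × ℕ) := {t | PC t ∧ (t.1 : ℝ) ≤ C * t.2.2 ∧ (t.2.1 : ℝ) ≤ C * t.2.2 ∧
    (rad (t.1 * t.2.1 * t.2.2) : ℝ) ≤ t.2.2 * Real.exp (-A0 * V t.2.2)}
  let c₁ : ℕ := ⌈C⌉₊
  have hc1 : 1 ≤ c₁ := Nat.one_le_ceil_iff.2 (by linarith)
  have hc1' : (1 : ℝ) ≤ c₁ := by exact_mod_cast hc1
  have hCc : C ≤ c₁ := Nat.le_ceil C
  let N : ℕ → ℕ := fun j => c₁ * 2 ^ (j + 1)
  let T : ℕ → Finset (ℕ × ℕ × ℕ) := fun j =>
    ((Icc 1 (N j)) ×ˢ ((Icc 1 (N j)) ×ˢ (Icc 1 (N j)))).filter fun t =>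
      t ∈ S ∧ 2 ^ j ≤ t.2.2 ∧ t.2.2 < 2 ^ (j + 1)
  let Y : ℕ → ℝ := fun j => 2 ^ (j + 1) * Real.exp (-A0 * V ((2 : ℝ) ^ j))
  have hNr : ∀ j, ((N j : ℕ) : ℝ) = (2 * c₁) * (2 : ℝ) ^ j := by
    intro j
    simp only [N]
    push_cast
    ring
  have hbig : ∀ᶠ j : ℕ in atTop, Real.exp (Real.exp 1) ≤ (2 : ℝ) ^ j :=
    (tendsto_pow_atTop_atTop_of_one_lt (by norm_num : (1 : ℝ) < 2)).eventually_ge_atTop _
  obtain ⟨N₀, hN₀⟩ := hB (ε / 2) (A0 + Real.log c₁) (by linarith)
    (add_nonneg hA0pos.le (Real.log_nonneg hc1'))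
  have hsum : Summable fun j : ℕ => ((T j).card : ℝ) * (C / 2 ^ j) := by
    have h0 : Summable fun j : ℕ =>
        (2 * C * Real.exp ((4 * Real.sqrt 3 + ε / 2) * Real.sqrt (Real.log (2 * c₁)))) *
          Real.exp (-(ε / 2) * V ((2 : ℝ) ^ j)) := (summable_V (by linarith)).mul_left _
    refine Summable.of_norm_bounded_eventually_nat h0 ?_
    filter_upwards [hbig, eventually_ge_atTop N₀] with j hj hjN
    rw [Real.norm_of_nonneg (by positivity)]
    have h2j : (0 : ℝ) < (2 : ℝ) ^ j := by positivity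
    have hle : (2 : ℝ) ^ j ≤ N j := by
      rw [hNr]
      nlinarith
    have hVN : V (N j) ≤ V ((2 : ℝ) ^ j) + Real.sqrt (Real.log (2 * c₁)) := by
      rw [hNr]
      exact V_mul hj (by linarith)
    have hNj : N₀ ≤ N j := by
      have e1 : j < 2 ^ j := Nat.lt_two_pow_self
      have e2 : 2 ^ j ≤ N j := by
        simp only [N]
        rw [pow_succ]
        nlinarith [Nat.one_le_two_pow (n := j)]
      omega
    have hlog1 : Real.exp 1 ≤ Real.log ((2 : ℝ) ^ j) := (Real.le_log_iff_exp_le h2j).2 hj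
    have hlogN : Real.log ((2 : ℝ) ^ j) ≤ Real.log (N j) := Real.log_le_log h2j hle
    have hsq1 : 1 ≤ Real.sqrt (Real.log (N j)) := by
      rw [Real.one_le_sqrt]
      have : (1 : ℝ) ≤ Real.exp 1 := Real.one_le_exp (by norm_num)
      linarith
    have hVs : V ((2 : ℝ) ^ j) ≤ Real.sqrt (Real.log (N j)) :=
      (V_le hj).trans (Real.sqrt_le_sqrt hlogN)
    have hcond : (N j : ℝ) * Real.exp (-(A0 + Real.log c₁) * Real.sqrt (Real.log (N j))) ≤ Y j := by
      have e1 : (N j : ℝ) = 2 ^ (j + 1) * Real.exp (Real.log c₁) := by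
        rw [Real.exp_log (by linarith), hNr]
        ring
      have hl0 : 0 ≤ Real.log c₁ := Real.log_nonneg hc1'
      have e2 : Real.log c₁ + -(A0 + Real.log c₁) * Real.sqrt (Real.log (N j)) ≤
          -A0 * V ((2 : ℝ) ^ j) := by
        nlinarith [mul_le_mul_of_nonneg_left hVs hA0pos.le, mul_le_mul_of_nonneg_left hsq1 hl0]
      calc (N j : ℝ) * Real.exp (-(A0 + Real.log c₁) * Real.sqrt (Real.log (N j)))
          = (2 ^ (j + 1) * Real.exp (Real.log c₁)) *
              Real.exp (-(A0 + Real.log c₁) * Real.sqrt (Real.log (N j))) := by rw [← e1]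
        _ = 2 ^ (j + 1) * Real.exp (Real.log c₁ +
              -(A0 + Real.log c₁) * Real.sqrt (Real.log (N j))) := by
            rw [Real.exp_add (Real.log c₁)]; ring
        _ ≤ 2 ^ (j + 1) * Real.exp (-A0 * V ((2 : ℝ) ^ j)) :=
            mul_le_mul_of_nonneg_left (Real.exp_le_exp.2 e2) (by positivity)
    have hcard := hN₀ (N j) hNj (Y j) hcond
    have hsub : (T j).card ≤ (trip (N j) (Y j)).card := by
      apply Finset.card_le_card
      intro t ht
      simp only [T, Finset.mem_filter] at ht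
      obtain ⟨h1, ⟨h2, h3, h4, h5⟩, h6, h7⟩ := ht
      simp only [trip, Finset.mem_filter]
      refine ⟨h1, h2, h5.trans ?_⟩
      have h7' : (t.2.2 : ℝ) ≤ 2 ^ (j + 1) := by exact_mod_cast h7.le
      have h6' : (2 : ℝ) ^ j ≤ t.2.2 := by exact_mod_cast h6
      apply mul_le_mul h7' _ (Real.exp_pos _).le (by positivity)
      apply Real.exp_le_exp.2
      have := V_mono hj h6'
      nlinarith
    have hsub' : ((T j).card : ℝ) ≤ ((trip (N j) (Y j)).card : ℝ) := by exact_mod_cast hsub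
    calc ((T j).card : ℝ) * (C / 2 ^ j)
        ≤ (Y j * Real.exp ((4 * Real.sqrt 3 + ε / 2) * V (N j))) * (C / 2 ^ j) :=
          mul_le_mul_of_nonneg_right (hsub'.trans hcard) (by positivity)
      _ = 2 * C * Real.exp (-A0 * V ((2 : ℝ) ^ j) + (4 * Real.sqrt 3 + ε / 2) * V (N j)) := by
          rw [Real.exp_add]
          simp only [Y]
          field_simp
          ring
      _ ≤ 2 * C * Real.exp ((4 * Real.sqrt 3 + ε / 2) * Real.sqrt (Real.log (2 * c₁)) +
            -(ε / 2) * V ((2 : ℝ) ^ j)) := by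
          apply mul_le_mul_of_nonneg_left _ (by linarith)
          apply Real.exp_le_exp.2
          have := mul_le_mul_of_nonneg_left hVN (show 0 ≤ 4 * Real.sqrt 3 + ε / 2 by linarith)
          rw [hA0]
          nlinarith
      _ = _ := by rw [Real.exp_add]; ring
  let s : ℕ × ℕ × ℕ → Set Ω := fun t => if t ∈ S then E t else ∅
  have hfin : ∑' t, μ (s t) ≠ ⊤ := by
    have h1 : ∑' t, μ (s t) ≤ ∑' t, ∑' j, (if t ∈ T j then ENNReal.ofReal (C / 2 ^ j) else 0) := by
      apply ENNReal.tsum_le_tsum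
      intro t
      by_cases ht : t ∈ S
      · simp only [s, if_pos ht]
        have hPC : PC t := ht.1
        have hc0 : 0 < t.2.2 := hPC.2.2.1
        have hj1 : 2 ^ (Nat.log 2 t.2.2) ≤ t.2.2 := Nat.pow_log_le_self 2 hc0.ne'
        have hj2 : t.2.2 < 2 ^ (Nat.log 2 t.2.2 + 1) := Nat.lt_pow_succ_log_self (by norm_num) _
        have hcN : t.2.2 ≤ N (Nat.log 2 t.2.2) := by
          simp only [N]
          nlinarith
        have hx : ∀ a : ℕ, (a : ℝ) ≤ C * t.2.2 → a ≤ N (Nat.log 2 t.2.2) := by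
          intro a ha
          have h3 : (a : ℝ) ≤ ((N (Nat.log 2 t.2.2) : ℕ) : ℝ) := by
            refine ha.trans ?_
            have h4 : (t.2.2 : ℝ) ≤ 2 ^ (Nat.log 2 t.2.2 + 1) := by exact_mod_cast hj2.le
            simp only [N]
            push_cast
            exact mul_le_mul hCc h4 (by positivity) (by positivity)
          exact_mod_cast h3
        have hmem : t ∈ T (Nat.log 2 t.2.2) := by
          simp only [T, Finset.mem_filter, Finset.mem_product, Finset.mem_Icc]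
          exact ⟨⟨⟨hPC.1, hx _ ht.2.1⟩, ⟨hPC.2.1, hx _ ht.2.2.1⟩, ⟨hc0, hcN⟩⟩, ht, hj1, hj2⟩
        refine le_trans ?_ (ENNReal.le_tsum (Nat.log 2 t.2.2))
        rw [if_pos hmem]
        refine (hμ t hPC).trans (ENNReal.ofReal_le_ofReal ?_)
        have h5 : (2 : ℝ) ^ (Nat.log 2 t.2.2) ≤ t.2.2 := by exact_mod_cast hj1
        exact div_le_div_of_nonneg_left (by linarith) (by positivity) h5
      · simp [s, if_neg ht]
    have h2 : ∑' t, ∑' j, (if t ∈ T j then ENNReal.ofReal (C / 2 ^ j) else 0) =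
        ∑' j, ENNReal.ofReal (((T j).card : ℝ) * (C / 2 ^ j)) := by
      rw [ENNReal.tsum_comm]
      congr 1
      ext j
      rw [tsum_eq_sum (s := T j) (fun t ht => if_neg ht)]
      rw [Finset.sum_congr rfl (fun t ht => if_pos ht), Finset.sum_const, nsmul_eq_mul,
        ENNReal.ofReal_mul (by positivity), ENNReal.ofReal_natCast]
    refine ne_top_of_le_ne_top ?_ h1
    rw [h2]
    exact hsum.tsum_ofReal_ne_top
  have h := ae_finite_setOfPred_mem hfin
  filter_upwards [h] with ω hω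
  refine hω.subset ?_
  rintro t ⟨h1, h2, h3, h4, h5⟩
  have ht : t ∈ S := ⟨h1, h2, h3, h5⟩
  simp only [Set.mem_setOf_eq, s, if_pos ht]
  exact h4

end Pool.Agent.D0H65.AB
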